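import Pool.Agent.H.MP_60133c_an.A

set_option autoImplicit false
open Polynomial

namespace Pool.Agent.Results.MP_60133c_an.Yes

/-- The coefficient of `t ^ m` in `1 / (Q t + z t ^ r)`, a rational function of `z`. -/
noncomputable def P (Q : ℝ[X]) (r m : ℕ) : RatFunc ℝ :=
  PowerSeries.coeff m ((Q.map (algebraMap ℝ (RatFunc ℝ))).toPowerSeries +
    PowerSeries.C (RatFunc.X : RatFunc ℝ) * PowerSeries.X ^ r)⁻¹

open Pool.Agent.H.MP_60133c_an in
theorem result (Q : ℝ[X]) (hd : 0 < Q.natDegree)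
    (hz : ∀ t : ℂ, aeval t Q = 0 → t.im = 0 ∧ 0 < t.re) (h0 : 0 < Q.eval 0) (r m : ℕ) (z : ℂ)
    (h : aeval z (P Q r m).num = 0) : z.im = 0 ∧ 0 < z.re := by
  by_contra hn
  have cm : ∀ {R S : Type} [CommRing R] [CommRing S] (f : R →+* S) (G : PowerSeries R),
    PowerSeries.constantCoeff (PowerSeries.map f G) = f (PowerSeries.constantCoeff G) :=
      fun _ _ => rfl
  obtain ⟨D, hD⟩ : ∃ D : PowerSeries ℝ[X], D = (Q.map C).toPowerSeries +
    PowerSeries.C X * PowerSeries.X ^ r := ⟨_, rfl⟩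
  have mp : ∀ (K : Type) [Field K] (φ : ℝ[X] →+* K), PowerSeries.map φ D =
      (Q.map (φ.comp C)).toPowerSeries + PowerSeries.C (φ X) * PowerSeries.X ^ r := fun K _ φ => by
    rw [hD, ← Polynomial.map_map, polynomial_map_coe]; simp
  obtain ⟨N, hN⟩ := num D m
  have d0 : PowerSeries.coeff 0 D ≠ 0 := fun e => by
    have := congrArg (coeff · 0) e
    rcases r with _ | r <;> simp [hD, cm, coeff_zero_eq_eval_zero Q, h0.ne'] at this
  have e1 := (hN _ (algebraMap ℝ[X] (RatFunc ℝ))).1 (by simpa using d0)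
  rw [mp, ← map_pow] at e1
  have e2 : aeval z N = 0 := by
    obtain ⟨k, hk⟩ := RatFunc.num_div_dvd N (pow_ne_zero (m + 1) d0)
    rw [hk, map_mul, ← e1]; exact mul_eq_zero_of_left h _
  have q0 : Q.map (algebraMap ℝ ℂ) ≠ 0 := by
    rw [Polynomial.map_ne_zero_iff (RingHom.injective _)]; rintro rfl; simp at hd
  obtain ⟨a, k, ha, e⟩ := fact (Q.map (algebraMap ℝ ℂ)).roots fun t ht => hz t (by
    simpa [aeval_def] using ((mem_roots q0).1 ht).eq_zero)
  have e3 := C_leadingCoeff_mul_prod_multiset_X_sub_C (IsAlgClosed.card_roots_eq_natDegree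
    (p := Q.map (algebraMap ℝ ℂ)))
  obtain ⟨n, hn'⟩ := Nat.exists_eq_add_one_of_ne_zero hd.ne'
  rw [e, IsAlgClosed.card_roots_eq_natDegree, natDegree_map, hn', ← mul_assoc, ← C_mul] at e3
  obtain ⟨c, hc⟩ : ∃ c, c = Q.eval 0 := ⟨_, rfl⟩
  rw [← hc] at h0
  have c0 : (c : ℂ) ≠ 0 := by simpa using h0.ne'
  have e4 := congrArg (eval 0) e3
  simp only [eval_mul, eval_C, eval_prod, eval_sub, eval_one, eval_X, mul_zero, sub_zero,
    Finset.prod_const_one, mul_one, eval_zero_map, ← hc] at e4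
  rw [e4] at e3
  have e5 : ∀ (r : ℕ) (z : ℂ), (Q.map (algebraMap ℝ ℂ)).toPowerSeries + PowerSeries.C z *
      PowerSeries.X ^ r = PowerSeries.C (c : ℂ) * (∏ i ∈ Finset.range (n + 1),
        (1 - PowerSeries.C (a i : ℂ) * PowerSeries.X) - PowerSeries.C (-z / c) *
          PowerSeries.X ^ r) := fun r z => by
    rw [← e3, mul_sub, ← mul_assoc, ← map_mul, mul_div_cancel₀ _ c0, ← coeToPowerSeries.ringHom_apply,
      map_mul, map_prod]
    simp
  have e6 : ∀ (r : ℕ) (z : ℂ), ¬ (z.im = 0 ∧ 0 < z.re) → ∀ G : PowerSeries ℂ,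
      G = (Q.map (algebraMap ℝ ℂ)).toPowerSeries + PowerSeries.C z * PowerSeries.X ^ r →
      PowerSeries.coeff 0 G ≠ 0 → ∀ m, PowerSeries.coeff m G⁻¹ ≠ 0 := fun r z hn G hG g0 m e => by
    refine core (w := -z / c) (fun k => hn ?_) ha (n := n) (r := r)
      (F := PowerSeries.C (c : ℂ) * G⁻¹) ?_ m (by simp [e])
    · simpa [h0.ne', neg_div, div_pos_iff_of_pos_right h0] using k
    · rw [mul_comm (PowerSeries.C _), mul_assoc, ← e5, ← hG, G.inv_mul_cancel (by simpa using g0)]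
  have e7 : (aeval z : ℝ[X] →ₐ[ℝ] ℂ).toRingHom.comp C = algebraMap ℝ ℂ := by ext; simp
  obtain ⟨h1, h2⟩ := hN ℂ (aeval z : ℝ[X] →ₐ[ℝ] ℂ).toRingHom
  by_cases g : (aeval z : ℝ[X] →ₐ[ℝ] ℂ).toRingHom (PowerSeries.coeff 0 D) = 0
  · rcases r with _ | r
    · rcases m with _ | m
      · simpa [e2] using h2 g
      · have k1 : Q.coeff 1 = 0 := by simpa [e2, hD, PowerSeries.coeff_one] using (h2 g).symm
        have g0 : PowerSeries.constantCoeff (Q.map (algebraMap ℝ ℂ)).toPowerSeries ≠ 0 := by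
          simpa [cm, coeff_zero_eq_eval_zero, ← hc] using h0.ne'
        have := congrArg (PowerSeries.coeff 1) (PowerSeries.mul_inv_cancel _ g0)
        rw [PowerSeries.coeff_mul] at this
        refine e6 1 0 (by simp) (Q.map (algebraMap ℝ ℂ)).toPowerSeries (by simp) (by simpa [cm] using g0)
          1 ?_
        simpa [Finset.Nat.antidiagonal_succ, k1, PowerSeries.coeff_one, coeff_zero_eq_eval_zero,
          ← hc, h0.ne'] using this
    · simp [hD, cm, coeff_zero_eq_eval_zero, ← hc, h0.ne'] at g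
  · refine e6 r z hn (PowerSeries.map (aeval z : ℝ[X] →ₐ[ℝ] ℂ).toRingHom D) (by rw [mp, e7]; simp)
      (by rwa [PowerSeries.coeff_map]) m ?_
    rw [h1 g]; simp [e2]

end Pool.Agent.Results.MP_60133c_an.Yes
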